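import Pool.Agent.Helper63.Sey2.Goals

/-!
# Project SEY2 (MP_b6b2d3_co), packet COVER
-/

set_option autoImplicit false

namespace Pool.Agent.Helper43.Sey2

open Pool.Agent.Helper63.Sey2

theorem card_le_fib {V : Type} [Fintype V] {N B : ℕ} (C : V → Fin N)
    (h : ∀ x, Nat.card {v // C v = x} ≤ B) : Fintype.card V ≤ N * B := by
  classical
  have h1 : Fintype.card V = ∑ x : Fin N, Nat.card {v // C v = x} := by
    rw [← Finset.card_univ, Finset.card_eq_sum_card_fiberwise (f := C) (t := Finset.univ)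
      (fun _ _ => Finset.mem_coe.2 (Finset.mem_univ _))]
    refine Finset.sum_congr rfl fun x _ => ?_
    rw [Nat.card_eq_fintype_card, Fintype.card_subtype]
  rw [h1]
  calc ∑ x : Fin N, Nat.card {v // C v = x} ≤ ∑ _x : Fin N, B := Finset.sum_le_sum fun x _ => h x
    _ = N * B := by simp

theorem goalCOVER (hP : GoalPIECES) (hH : GoalHOST) (hO : GoalORD) : GoalCOVER := by
  intro A0
  obtain ⟨A, hA⟩ : ∃ A : ℕ, A = max A0 1 := ⟨_, rfl⟩
  have hA1 : 1 ≤ A := by rw [hA]; exact le_max_right _ _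
  have hA0 : A0 ≤ A := by rw [hA]; exact le_max_left _ _
  obtain ⟨c, hc2, hORD⟩ := hO A hA1
  obtain ⟨K, hK⟩ : ∃ K : ℕ, K = 4096 + 48 * (c * A) * (64 * (c * A) + 2) := ⟨_, rfl⟩
  refine ⟨K, ?_⟩
  intro V _ H s m f hKs hdeg hprop hKms
  suffices hs : ∃ σ : Fin (Fintype.card V) ≃ V, ∀ i k : Fin (Fintype.card V), H.Adj (σ i) (σ k) →
      A * s < (k.val + Fintype.card V - i.val) % Fintype.card V by
    obtain ⟨σ, hσ⟩ := hs
    exact ⟨σ, fun i k hik => (Nat.mul_le_mul_right s hA0).trans_lt (hσ i k hik)⟩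
  rcases isEmpty_or_nonempty V with hV | hV
  · refine ⟨(Fintype.equivFin V).symm, fun i => ?_⟩
    exact isEmptyElim ((Fintype.equivFin V).symm i)
  have hm : 1 ≤ m := by
    obtain ⟨v⟩ := hV
    have := (f v).isLt
    omega
  have hcA : 1 ≤ c * A := Nat.mul_pos (by omega) hA1
  obtain ⟨q, hq⟩ : ∃ q : ℕ, q = c * A := ⟨_, rfl⟩
  rw [← hq] at hcA hK
  have hs4096 : 4096 ≤ s := by
    have : 4096 ≤ K := by rw [hK]; omega
    omega
  obtain ⟨b, hb⟩ : ∃ b : ℕ, b = 2 * (c * (A * s)) := ⟨_, rfl⟩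
  have hbq : b = 2 * (q * s) := by rw [hb, hq]; ring
  have hb1 : s ≤ b := by rw [hbq]; nlinarith
  obtain ⟨h, hh⟩ : ∃ h : ℕ, h = s / 4 := ⟨_, rfl⟩
  have hh1 : 1 ≤ h := by omega
  have hh4 : 4 * h ≤ s := by omega
  have hh8 : s ≤ 8 * h := by omega
  obtain ⟨ι, _, g, big, hg1, hg2, hg3, hg4⟩ := hP V m (4 * b) h f (by omega) hh1
  have hdiv : 4 * b / h ≤ 64 * q := by
    have h1 : 4 * b ≤ 64 * q * h := by
      rw [hbq]
      calc 4 * (2 * (q * s)) = 8 * q * s := by ring
        _ ≤ 8 * q * (8 * h) := Nat.mul_le_mul_left _ hh8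
        _ = 64 * q * h := by ring
    exact Nat.div_le_of_le_mul (by rw [mul_comm h]; exact h1)
  have hz : 24 * b * Nat.card {i // ¬ big i} ≤ Fintype.card V := by
    refine le_trans ?_ hKms
    calc 24 * b * Nat.card {i // ¬ big i} ≤ 24 * b * (m * (64 * q + 1)) :=
          Nat.mul_le_mul_left _ (hg4.trans (Nat.mul_le_mul_left _ (by omega)))
      _ = (48 * q * (64 * q + 1)) * m * s := by rw [hbq]; ring
      _ ≤ K * m * s := by
          apply Nat.mul_le_mul_right
          apply Nat.mul_le_mul_right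
          rw [hK]
          have : 48 * q * (64 * q + 1) ≤ 48 * q * (64 * q + 2) := Nat.mul_le_mul_left _ (by omega)
          omega
  obtain ⟨N, C, hC1, hC2⟩ := hH V ι H g big s b h (fun u v huv he => hprop u v huv (hg1 u v he))
    hdeg (by omega) (by omega) hh4 hg2 hg3 hz
  have hN : 2 ≤ N := by
    by_contra hlt
    have h1 := card_le_fib C fun x => (hC2 x).2
    have h2 : N * (4 * b) ≤ 1 * (4 * b) := Nat.mul_le_mul_right _ (by omega)
    have h3 : K * 1 * s ≤ K * m * s := Nat.mul_le_mul_right _ (Nat.mul_le_mul_left _ hm)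
    have h4 : 8 * q + 1 ≤ K := by rw [hK]; nlinarith
    have h5 : (8 * q + 1) * s ≤ K * s := Nat.mul_le_mul_right _ h4
    have h6 : 4 * b = 8 * q * s := by rw [hbq]; ring
    have h7 : (8 * q + 1) * s = 8 * q * s + s := by ring
    have h8 : K * 1 * s = K * s := by ring
    omega
  exact hORD V H s N C hs4096 hN hdeg hC1 (fun x => by
    have := hC2 x
    rw [hb] at this
    exact this)

end Pool.Agent.Helper43.Sey2
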